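import Mathlib
import Pool.Agent.V5helper63.TrinomSq

set_option autoImplicit false

/-!
# MP_bba144_nt, Q2: the congruence modulo `p^2` for the weighted sum of squared generalized
trinomial coefficients
-/

namespace Pool.Agent.Results.MP_bba144_nt.PrimeSquareCongruence

open Finset Polynomial

/-- The generalized central trinomial coefficient `T_m(b,c)`: the coefficient of `x^m` in
`(x^2 + b x + c)^m`. -/
noncomputable def T (b c : ℤ) (m : ℕ) : ℤ :=
  ((X ^ 2 + C b * X + C c : ℤ[X]) ^ m).coeff m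

/-- **Q2 is true.** For all integers `b, c` and every odd prime `p` not dividing `b(b-2c)`, the
rational number
`∑_{j<p} (8cj+4c+b) T_j(b,c^2)^2/(b-2c)^(2j) - p (b+2c) ((b^2-4c^2)/p)` is `p^2` times a rational
number whose denominator is not divisible by `p`, i.e. the two sides are congruent modulo `p^2`. -/
theorem result (b c : ℤ) (p : ℕ) [hp : Fact p.Prime] (hp2 : p ≠ 2)
    (hb : ¬ (p : ℤ) ∣ b * (b - 2 * c)) :
    ∃ r : ℚ, ¬ p ∣ r.den ∧
      (∑ j ∈ range p, (8 * (c : ℚ) * (j : ℚ) + 4 * (c : ℚ) + (b : ℚ))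
          * ((T b (c ^ 2) j : ℚ) ^ 2 / ((b : ℚ) - 2 * (c : ℚ)) ^ (2 * j)))
        - (p : ℚ) * ((b : ℚ) + 2 * (c : ℚ)) * (legendreSym p (b ^ 2 - 4 * c ^ 2) : ℚ)
      = (p : ℚ) ^ 2 * r := by
  have hT : ∀ j, T b (c ^ 2) j = V5helper63.TrinomSq.T b (c ^ 2) j := fun _ => rfl
  simp only [hT]
  obtain ⟨z, hz⟩ := V5helper63.TrinomSq.q2_int p hp2 b c hb
  have hu0 : (b - 2 * c : ℤ) ≠ 0 := by
    intro h
    apply hb
    rw [h, mul_zero]
    exact dvd_zero _
  have hu : ((b : ℚ) - 2 * (c : ℚ)) ≠ 0 := by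
    have : ((b - 2 * c : ℤ) : ℚ) ≠ 0 := by exact_mod_cast hu0
    push_cast at this
    exact this
  have hp1 : p - 1 + 1 = p := by
    have := hp.out.one_lt
    omega
  refine ⟨(z : ℚ) / (((b - 2 * c) ^ (2 * (p - 1)) : ℤ) : ℚ), ?_, ?_⟩
  · intro h
    have h1 : (((z : ℚ) / (((b - 2 * c) ^ (2 * (p - 1)) : ℤ) : ℚ)).den : ℤ)
        ∣ (b - 2 * c) ^ (2 * (p - 1)) := by
      rw [Rat.intCast_div_eq_divInt]
      exact Rat.den_dvd _ _
    have h2 : (p : ℤ) ∣ (b - 2 * c) ^ (2 * (p - 1)) :=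
      dvd_trans (Int.natCast_dvd_natCast.mpr h) h1
    have h3 : (p : ℤ) ∣ b - 2 * c := Int.Prime.dvd_pow' hp.out h2
    exact hb (Dvd.dvd.mul_left h3 _)
  · have h1 : (∑ j ∈ range p, (8 * (c : ℚ) * (j : ℚ) + 4 * (c : ℚ) + (b : ℚ))
          * ((V5helper63.TrinomSq.T b (c ^ 2) j : ℚ) ^ 2 / ((b : ℚ) - 2 * (c : ℚ)) ^ (2 * j)))
        = ((V5helper63.TrinomSq.S (b - 2 * c) c p : ℤ) : ℚ) / ((b : ℚ) - 2 * (c : ℚ)) ^ (2 * (p - 1)) := by
      rw [← V5helper63.TrinomSq.S_eq, Int.cast_sum, sum_div]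
      apply sum_congr rfl
      intro j hj
      have hj' : 2 * (p - 1) = 2 * (p - 1 - j) + 2 * j := by
        have := mem_range.mp hj
        omega
      rw [hj', pow_add]
      have hu2 := pow_ne_zero (2 * (p - 1 - j)) hu
      have hu3 := pow_ne_zero (2 * j) hu
      push_cast
      rw [mul_comm (((b : ℚ) - 2 * (c : ℚ)) ^ (2 * (p - 1 - j))), mul_div_mul_right _ _ hu2,
        mul_div_assoc]
    rw [h1]
    have h2 := congrArg (Int.cast : ℤ → ℚ) hz
    push_cast at h2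
    have hu2 := pow_ne_zero (2 * (p - 1)) hu
    push_cast
    field_simp
    linear_combination h2

end Pool.Agent.Results.MP_bba144_nt.PrimeSquareCongruence
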